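import Mathlib
import Pool.Agent.LeoD.AlgStmts
import Pool.Agent.LeoK.StrStmts

/-! Module ETA of squad LEOD: properties of the limits of the units. -/

set_option autoImplicit false

open NumberField NumberField.InfinitePlace NumberField.mixedEmbedding IsDedekindDomain Module
  MeasureTheory Filter Topology
open Pool.Agent.Helper85_Leo Pool.Agent.LeoK Pool.Agent.LeoG Pool.Agent.LeoC Pool.Agent.LeoD
open Pool.Agent.Leo3 (Om InLoc FixF)

namespace Pool.Agent.LeoD.H76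

set_option linter.unusedSectionVars false

theorem norm_auto (ρ : Om ≃ₐ[ℚ_[3]] Om) (x : Om) : ‖ρ x‖ = ‖x‖ := by
  rw [← PadicAlgCl.spectralNorm_eq, ← PadicAlgCl.spectralNorm_eq]
  exact (spectralNorm_eq_of_equiv ρ x).symm

theorem eq_of_small {a b : Om} (C : ℝ) (h : ∀ N : ℕ, ‖a - b‖ ≤ C * (3 : ℝ)⁻¹ ^ N) : a = b := by
  have h1 : Tendsto (fun N : ℕ => C * (3 : ℝ)⁻¹ ^ N) atTop (𝓝 (C * 0)) :=
    (tendsto_pow_atTop_nhds_zero_of_lt_one (by norm_num) (by norm_num)).const_mul C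
  rw [mul_zero] at h1
  have h2 : ‖a - b‖ ≤ 0 := ge_of_tendsto' h1 h
  exact sub_eq_zero.mp (norm_le_zero_iff.mp h2)

theorem norm_tors {a : Om} (h : ∃ j : ℕ, a ^ 3 ^ j = 1) : ‖a‖ = 1 := by
  obtain ⟨j, hj⟩ := h
  have h1 : ‖a‖ ^ 3 ^ j = 1 := by rw [← norm_pow, hj, norm_one]
  exact (pow_eq_one_iff_of_nonneg (norm_nonneg a) (by positivity)).mp h1

/-- From a root of unity of 3-power order: if it is not `1`, then `ω` is `±(ζ - ζ⁻¹)` for a power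
`ζ`. -/
theorem om_of_tors {a ω : Om} (h : ∃ j : ℕ, a ^ 3 ^ j = 1) (ha : a ≠ 1) (hω : ω ^ 2 = -3) :
    ∃ n : ℕ, ω = a ^ n - (a ^ n)⁻¹ ∨ ω = -(a ^ n - (a ^ n)⁻¹) := by
  classical
  obtain ⟨j, hj⟩ : ∃ j, j = Nat.find h := ⟨_, rfl⟩
  have hspec : a ^ 3 ^ j = 1 := by rw [hj]; exact Nat.find_spec h
  have hmin : ∀ i, i < j → a ^ 3 ^ i ≠ 1 := by
    intro i hi
    rw [hj] at hi
    exact Nat.find_min h hi
  have hj0 : j ≠ 0 := by
    rintro h0
    rw [h0] at hspec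
    simp only [pow_zero, pow_one] at hspec
    exact ha hspec
  obtain ⟨i, rfl⟩ := Nat.exists_eq_succ_of_ne_zero hj0
  refine ⟨3 ^ i, ?_⟩
  obtain ⟨z, hz⟩ : ∃ z, z = a ^ 3 ^ i := ⟨_, rfl⟩
  rw [← hz]
  have hz1 : z ≠ 1 := by
    rw [hz]
    exact hmin i (Nat.lt_succ_self i)
  have hz3 : z ^ 3 = 1 := by
    rw [hz, ← pow_mul, ← pow_succ]
    exact hspec
  have hz0 : z ≠ 0 := by
    intro h0
    rw [h0] at hz3
    norm_num at hz3
  have hq : z ^ 2 + z + 1 = 0 := by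
    have h1 : (z - 1) * (z ^ 2 + z + 1) = 0 := by
      have h2 : (z - 1) * (z ^ 2 + z + 1) = z ^ 3 - 1 := by ring
      rw [h2, hz3, sub_self]
    rcases mul_eq_zero.mp h1 with h2 | h2
    · exact absurd (sub_eq_zero.mp h2) hz1
    · exact h2
  have hinv : z⁻¹ = z ^ 2 := by
    have h1 : z * z ^ 2 = 1 := by
      rw [← hz3]; ring
    exact inv_eq_of_mul_eq_one_right h1
  have hsq : (z - z⁻¹) ^ 2 = ω ^ 2 := by
    rw [hinv, hω]
    have h4 : z ^ 4 = z := by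
      calc z ^ 4 = z ^ 3 * z := by ring
        _ = z := by rw [hz3, one_mul]
    have h5 : (z - z ^ 2) ^ 2 = z ^ 2 - 2 * z ^ 3 + z ^ 4 := by ring
    rw [h5, hz3, h4]
    linear_combination hq
  rcases sq_eq_sq_iff_eq_or_eq_neg.mp hsq with h1 | h1
  · left; exact h1.symm
  · right; rw [h1, neg_neg]

theorem eta (qlo : QloStmt) : EtaStmt := by
  intro k K _ _ _ _ _ m s c hQ η htors happ ω hω φ
  have hs0 : (s : K) ≠ 0 := by
    intro h0
    have h1 := hQ.sq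
    rw [h0, zero_pow (by norm_num)] at h1
    have h2 : (3 * (m : k)) = 0 := by
      have := (map_eq_zero (algebraMap k K)).mp h1.symm
      exact this
    exact hQ.nsq 0 (by rw [h2]; norm_num)
  have hc1 : c ≠ 1 := by
    rintro rfl
    have h1 := hQ.conj
    have h2 : (s : K) = -(s : K) := h1
    have h3 : (2 : K) * s = 0 := by linear_combination h2
    rcases mul_eq_zero.mp h3 with h4 | h4
    · exact two_ne_zero h4
    · exact hs0 h4
  -- equivariance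
  have hequi : ∀ (ρ : Om ≃ₐ[ℚ_[3]] Om) (φ₁ φ₂ : K →+* Om), (∀ x, ρ (φ₁ x) = φ₂ x) →
      η φ₂ = ρ (η φ₁) := by
    intro ρ φ₁ φ₂ hρ
    refine eq_of_small 2 ?_
    intro N
    obtain ⟨z, -, hz⟩ := happ N
    have h1 : η φ₂ - ρ (η φ₁) = ρ (φ₁ z - η φ₁) - (φ₂ z - η φ₂) := by
      rw [map_sub, hρ]; ring
    rw [h1]
    refine le_trans (norm_sub_le _ _) ?_
    rw [norm_auto]
    have := hz φ₁
    have := hz φ₂
    linarith
  have hconj : ∀ φ₁ φ₂ : K →+* Om, (∀ x, φ₂ x = φ₁ (c x)) → η φ₂ = (η φ₁)⁻¹ := by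
    intro φ₁ φ₂ hφ
    have h0 : η φ₁ ≠ 0 := by
      intro h0
      have h1 := norm_tors (htors φ₁)
      rw [h0, norm_zero] at h1
      exact zero_ne_one h1
    refine eq_inv_of_mul_eq_one_left ?_
    refine eq_of_small 3 ?_
    intro N
    obtain ⟨z, hzc, hz⟩ := happ N
    have h1 : φ₂ z * φ₁ z = 1 := by
      rw [hφ, ← map_mul, mul_comm, hzc, map_one]
    have h2 : η φ₂ * η φ₁ - 1 = -((φ₂ z - η φ₂) * η φ₁ + φ₂ z * (φ₁ z - η φ₁)) := by
      rw [← h1]; ring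
    have hN : (3 : ℝ)⁻¹ ^ N ≤ 1 := pow_le_one₀ (by norm_num) (by norm_num)
    have hN0 : 0 ≤ (3 : ℝ)⁻¹ ^ N := by positivity
    have h3 : ‖φ₂ z‖ ≤ 2 := by
      have h4 : φ₂ z = (φ₂ z - η φ₂) + η φ₂ := by ring
      rw [h4]
      refine le_trans (norm_add_le _ _) ?_
      rw [norm_tors (htors φ₂)]
      have := hz φ₂
      linarith
    rw [h2, norm_neg]
    refine le_trans (norm_add_le _ _) ?_
    rw [norm_mul, norm_mul, norm_tors (htors φ₁), mul_one]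
    have h5 := hz φ₂
    have h6 := hz φ₁
    have h7 : ‖φ₂ z‖ * ‖φ₁ z - η φ₁‖ ≤ 2 * (3 : ℝ)⁻¹ ^ N :=
      mul_le_mul h3 h6 (norm_nonneg _) (by norm_num)
    linarith
  have hcase : ∀ ρ : Om ≃ₐ[ℚ_[3]] Om, FixF (φ.comp (algebraMap k K)) ρ →
      (ρ (η φ) = η φ ∧ ρ (φ s) = φ s) ∨ (ρ (η φ) = (η φ)⁻¹ ∧ ρ (φ s) = -φ s) := by
    intro ρ hρ
    rcases (qlo k K c hQ.two hc1 φ ρ hρ).1 with h1 | h1
    · left
      exact ⟨(hequi ρ φ φ h1).symm, h1 _⟩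
    · right
      refine ⟨?_, ?_⟩
      · rw [← hequi ρ φ (φ.comp (c : K →+* K)) (fun x => h1 x)]
        exact hconj φ _ (fun x => rfl)
      · rw [h1, hQ.conj, map_neg]
  by_cases hη1 : η φ = 1
  · left; exact hη1
  right
  obtain ⟨n, hn⟩ := om_of_tors (htors φ) hη1 hω
  have hω0 : ω ≠ 0 := by
    rintro rfl
    norm_num at hω
  have hωn : ω ≠ -ω := by
    intro h
    have h3 : (2 : Om) * ω = 0 := by linear_combination h
    rcases mul_eq_zero.mp h3 with h4 | h4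
    · exact two_ne_zero h4
    · exact hω0 h4
  have hcase2 : ∀ ρ : Om ≃ₐ[ℚ_[3]] Om, FixF (φ.comp (algebraMap k K)) ρ →
      (ρ ω = ω ∧ ρ (η φ) = η φ ∧ ρ (φ s) = φ s) ∨
      (ρ ω = -ω ∧ ρ (η φ) = (η φ)⁻¹ ∧ ρ (φ s) = -φ s) := by
    intro ρ hρ
    rcases hcase ρ hρ with ⟨h1, h2⟩ | ⟨h1, h2⟩
    · left
      refine ⟨?_, h1, h2⟩
      rcases hn with h3 | h3
      · rw [h3, map_sub, map_inv₀, map_pow, h1]
      · rw [h3, map_neg, map_sub, map_inv₀, map_pow, h1]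
    · right
      refine ⟨?_, h1, h2⟩
      rcases hn with h3 | h3
      · rw [h3, map_sub, map_inv₀, map_pow, h1, inv_pow, inv_inv, neg_sub]
      · rw [h3, map_neg, map_sub, map_inv₀, map_pow, h1, inv_pow, inv_inv]
        ring
  refine ⟨⟨htors φ, ?_, ?_⟩, φ s / ω, ?_, ?_⟩
  · intro ρ hρ hρω
    rcases hcase2 ρ hρ with ⟨h1, h2, h3⟩ | ⟨h1, h2, h3⟩
    · exact h2
    · exact absurd (hρω.symm.trans h1) hωn
  · intro ρ hρ hρω
    rcases hcase2 ρ hρ with ⟨h1, h2, h3⟩ | ⟨h1, h2, h3⟩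
    · exact absurd (h1.symm.trans hρω) hωn
    · exact h2
  · intro ρ hρ
    rw [map_div₀]
    rcases hcase2 ρ hρ with ⟨h1, h2, h3⟩ | ⟨h1, h2, h3⟩
    · rw [h1, h3]
    · rw [h1, h3, neg_div_neg_eq]
  · rw [div_mul_cancel₀ _ hω0]

end Pool.Agent.LeoD.H76
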