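import Mathlib
import Pool.Agent.LeoD.AlgStmts
import Pool.Agent.LeoD.FieldStmts

/-! Module DVP of squad LEOD: primes above 3. -/

set_option autoImplicit false

open NumberField NumberField.InfinitePlace NumberField.mixedEmbedding IsDedekindDomain Module
  MeasureTheory Filter Topology
open Pool.Agent.Helper85_Leo Pool.Agent.LeoK Pool.Agent.LeoG Pool.Agent.LeoC Pool.Agent.LeoD

namespace Pool.Agent.LeoD.H76

set_option linter.unusedSectionVars false

section prime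

variable {k : Type} [Field k] [NumberField k]

theorem two_not_mem (p : HeightOneSpectrum (𝓞 k)) (h3 : (3 : 𝓞 k) ∈ p.asIdeal) :
    (2 : 𝓞 k) ∉ p.asIdeal := by
  intro h2
  have h : (3 : 𝓞 k) - 2 ∈ p.asIdeal := Ideal.sub_mem _ h3 h2
  have h1 : (3 : 𝓞 k) - 2 = 1 := by norm_num
  rw [h1] at h
  exact p.isPrime.ne_top ((Ideal.eq_top_iff_one _).mpr h)

theorem nat_not_mem (p : HeightOneSpectrum (𝓞 k)) (h3 : (3 : 𝓞 k) ∈ p.asIdeal) (b : ℕ)
    (hb : Nat.Coprime b 6) : (b : 𝓞 k) ∉ p.asIdeal := by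
  intro hbp
  have hc : Nat.Coprime b 3 := Nat.Coprime.coprime_dvd_right (by norm_num) hb
  have hc2 : IsCoprime (b : ℤ) (3 : ℤ) := by
    have := Nat.isCoprime_iff_coprime.mpr hc
    exact_mod_cast this
  obtain ⟨u, v, huv⟩ := hc2
  have h1 : ((u : 𝓞 k)) * (b : 𝓞 k) + (v : 𝓞 k) * 3 = 1 := by
    have := congrArg (fun z : ℤ => (z : 𝓞 k)) huv
    simpa using this
  have h2 : (1 : 𝓞 k) ∈ p.asIdeal := by
    rw [← h1]
    exact Ideal.add_mem _ (Ideal.mul_mem_left _ _ hbp) (Ideal.mul_mem_left _ _ h3)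
  exact p.isPrime.ne_top ((Ideal.eq_top_iff_one _).mpr h2)

/-- If `x` is not in `p ^ (a + 1)` and `x y` is in `p ^ (b + a)` then `y` is in `p ^ b`. -/
theorem mem_pow_of_mul (p : HeightOneSpectrum (𝓞 k)) (a b : ℕ) (x y : 𝓞 k)
    (hx : x ∉ p.asIdeal ^ (a + 1)) (hxy : x * y ∈ p.asIdeal ^ (b + a)) : y ∈ p.asIdeal ^ b := by
  rw [← Ideal.dvd_span_singleton] at hx hxy ⊢
  rw [← Ideal.span_singleton_mul_span_singleton] at hxy
  rw [pow_dvd_iff_le_emultiplicity] at hx hxy ⊢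
  rw [emultiplicity_mul p.prime] at hxy
  push Not at hx
  have h1 : emultiplicity p.asIdeal (Ideal.span {x}) ≤ a := by
    push_cast at hx
    exact Order.lt_add_one_iff_of_not_isMax (by
      intro hm
      exact absurd hm (by
        rw [isMax_iff_eq_top]
        exact ENat.natCast_ne_top a)) |>.mp hx
  by_contra hcon
  push Not at hcon
  have h2 : emultiplicity p.asIdeal (Ideal.span {x}) + emultiplicity p.asIdeal (Ideal.span {y}) <
      ((b + a : ℕ) : ℕ∞) := by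
    push_cast
    rw [add_comm]
    exact ENat.add_lt_add_of_lt_of_le (by
      intro hc
      rw [hc] at h1
      exact absurd (top_le_iff.mp h1) (ENat.natCast_ne_top a)) hcon h1
  exact absurd hxy (not_le.mpr h2)

theorem absNorm_three : Ideal.absNorm (Ideal.span {(3 : 𝓞 k)}) = 3 ^ finrank ℚ k := by
  rw [Ideal.absNorm_span_singleton]
  have h1 : (3 : 𝓞 k) = algebraMap ℤ (𝓞 k) 3 := by simp
  rw [h1, Algebra.norm_algebraMap]
  rw [Int.natAbs_pow, RingOfIntegers.rank]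
  rfl

theorem three_not_mem (p : HeightOneSpectrum (𝓞 k)) :
    (3 : 𝓞 k) ∉ p.asIdeal ^ (2 * finrank ℚ k) := by
  intro h
  rw [← Ideal.dvd_span_singleton] at h
  have h1 := Ideal.absNorm_dvd_absNorm_of_le (Ideal.le_of_dvd h)
  rw [absNorm_three, map_pow] at h1
  have h2 : 2 ≤ Ideal.absNorm p.asIdeal := by
    have hne0 : Ideal.absNorm p.asIdeal ≠ 0 := by
      rw [Ne, Ideal.absNorm_eq_zero_iff]
      exact p.ne_bot
    have hne1 : Ideal.absNorm p.asIdeal ≠ 1 := by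
      rw [Ne, Ideal.absNorm_eq_one_iff]
      exact p.isPrime.ne_top
    omega
  have h3 : Ideal.absNorm p.asIdeal ^ (2 * finrank ℚ k) ≤ 3 ^ finrank ℚ k :=
    Nat.le_of_dvd (by positivity) h1
  have h4 : 2 ^ (2 * finrank ℚ k) ≤ Ideal.absNorm p.asIdeal ^ (2 * finrank ℚ k) :=
    Nat.pow_le_pow_left h2 _
  have h5 : (2 : ℕ) ^ (2 * finrank ℚ k) = 4 ^ finrank ℚ k := by
    rw [pow_mul]; norm_num
  have h6 : (3 : ℕ) ^ finrank ℚ k < 4 ^ finrank ℚ k :=
    Nat.pow_lt_pow_left (by norm_num) (by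
      have := finrank_pos (R := ℚ) (M := k)
      omega)
  omega

end prime

theorem dvp1 (fnb : FnbStmt) (k : Type) [Field k] [NumberField k] (B : BFr k) (m : 𝓞 k)
    (p : HeightOneSpectrum (𝓞 k)) (hF : Fund B.cc m) (h3 : (3 : 𝓞 k) ∈ p.asIdeal) :
    m ∉ p.asIdeal ^ 2 ∧ (2 : 𝓞 k) ∉ p.asIdeal ∧ (B.b : 𝓞 k) ∉ p.asIdeal ∧
      ∀ (M : ℕ) (A : 𝓞 k), 3 * m * A ∈ p.asIdeal ^ (M + 2 * finrank ℚ k + 2) →
        A ∈ p.asIdeal ^ M := by
  have h2 := two_not_mem p h3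
  have hb := nat_not_mem p h3 B.b B.cop
  have hm : m ∉ p.asIdeal ^ 2 := by
    intro hmp
    obtain ⟨-, -, hmc, hodd⟩ := (fnb k).2.1 B.cc m hF
    refine hodd p h2 ?_
    have hcc : ¬ B.cc ≤ p.asIdeal := by
      intro hle
      have hbc : (B.b : 𝓞 k) ∈ B.cc := by
        have h1 : Ideal.span {(B.b : 𝓞 k)} ≤ B.cc := by
          rw [← B.mul]
          exact Ideal.mul_le_right
        exact h1 (Ideal.mem_span_singleton_self _)
      exact hb (hle hbc)
    have hcop : IsCoprime B.cc p.asIdeal := by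
      rw [Ideal.isCoprime_iff_sup_eq]
      have hmax := p.isMaximal
      by_contra hne
      have h4 : p.asIdeal ≤ B.cc ⊔ p.asIdeal := le_sup_right
      have h5 := hmax.eq_of_le hne h4
      exact hcc (h5 ▸ le_sup_left)
    have hcop2 : IsCoprime (B.cc ^ 2) (p.asIdeal ^ 2) := hcop.pow
    rw [mul_pow, Ideal.mul_eq_inf_of_isCoprime hcop2]
    exact ⟨hmc, hmp⟩
  refine ⟨hm, h2, hb, ?_⟩
  intro M A hA
  have h4 : m * A ∈ p.asIdeal ^ (M + 2) := by
    refine mem_pow_of_mul p (2 * finrank ℚ k) (M + 2) 3 (m * A) ?_ ?_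
    · intro h
      exact three_not_mem p (Ideal.pow_le_pow_right (by omega) h)
    · have h5 : M + 2 + 2 * finrank ℚ k = M + 2 * finrank ℚ k + 2 := by ring
      rw [h5, ← mul_assoc]
      exact hA
  have h6 : A ∈ p.asIdeal ^ (M + 1) := by
    refine mem_pow_of_mul p 1 (M + 1) m A hm ?_
    exact h4
  exact Ideal.pow_le_pow_right (by omega) h6

theorem dvp2 (k : Type) [Field k] [NumberField k] (x : 𝓞 k)
    (hx : ∀ p : HeightOneSpectrum (𝓞 k), (3 : 𝓞 k) ∈ p.asIdeal →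
      x ∈ p.asIdeal ^ (2 * finrank ℚ k)) : (3 : 𝓞 k) ∣ x := by
  classical
  have h3ne : (3 : 𝓞 k) ≠ 0 := by norm_num
  rw [← Ideal.mem_span_singleton]
  obtain ⟨D, hD⟩ : ∃ D : Ideal (𝓞 k), ∀ s : 𝓞 k, s ∈ D ↔ s * x ∈ Ideal.span {(3 : 𝓞 k)} := by
    refine ⟨(Ideal.span {(3 : 𝓞 k)}).colon (Ideal.span {x} : Ideal (𝓞 k)), ?_⟩
    intro s
    rw [Submodule.mem_colon]
    constructor
    · intro h
      exact h x (Ideal.mem_span_singleton_self x)
    · intro h y hy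
      obtain ⟨z, rfl⟩ := Ideal.mem_span_singleton'.mp hy
      have h1 : s • (z * x) = z * (s * x) := by
        rw [smul_eq_mul]; ring
      rw [h1]
      exact Ideal.mul_mem_left _ _ h
  have htop : D = ⊤ := by
    by_contra hne
    obtain ⟨P, hP, hle⟩ := Ideal.exists_le_maximal D hne
    have h3D : (3 : 𝓞 k) ∈ D := by
      rw [hD]
      exact Ideal.mul_mem_right _ _ (Ideal.mem_span_singleton_self _)
    have h3P : (3 : 𝓞 k) ∈ P := hle h3D
    have hPne : P ≠ ⊥ := by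
      intro hb
      rw [hb] at h3P
      exact h3ne (Ideal.mem_bot.mp h3P)
    obtain ⟨p, hp⟩ : ∃ p : HeightOneSpectrum (𝓞 k), p.asIdeal = P :=
      ⟨⟨P, hP.isPrime, hPne⟩, rfl⟩
    rw [← hp] at h3P hle
    have h30 : Ideal.span {(3 : 𝓞 k)} ≠ 0 := by
      intro h0
      rw [Ideal.zero_eq_bot, Ideal.span_singleton_eq_bot] at h0
      exact h3ne h0
    have hfin : FiniteMultiplicity p.asIdeal (Ideal.span {(3 : 𝓞 k)}) :=
      FiniteMultiplicity.of_prime_left p.prime h30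
    obtain ⟨J, hJ, hJp⟩ := hfin.exists_eq_pow_mul_and_not_dvd
    obtain ⟨e, he⟩ : ∃ e, e = multiplicity p.asIdeal (Ideal.span {(3 : 𝓞 k)}) := ⟨_, rfl⟩
    rw [← he] at hJ
    have hele : e ≤ 2 * finrank ℚ k := by
      by_contra hcon
      push Not at hcon
      refine three_not_mem p (k := k) (Ideal.pow_le_pow_right hcon.le ?_)
      have h4 : Ideal.span {(3 : 𝓞 k)} ≤ p.asIdeal ^ e := by
        rw [hJ]
        exact Ideal.mul_le_left
      exact h4 (Ideal.mem_span_singleton_self _)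
    have hJp2 : ¬ J ≤ p.asIdeal := by
      intro h
      exact hJp (Ideal.dvd_iff_le.mpr h)
    obtain ⟨s, hsJ, hsp⟩ := SetLike.not_le_iff_exists.mp hJp2
    refine hsp (hle ?_)
    rw [hD, hJ, mul_comm s x]
    exact Ideal.mul_mem_mul (Ideal.pow_le_pow_right hele (hx p h3P)) hsJ
  have h1 : (1 : 𝓞 k) ∈ D := by
    rw [htop]; trivial
  rw [hD, one_mul] at h1
  exact h1

theorem dvp3 (k K : Type) [Field k] [NumberField k] [Field K] [NumberField K] [Algebra k K]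
    (I : Ideal (𝓞 k)) (x : 𝓞 k)
    (hx : algebraMap (𝓞 k) (𝓞 K) x ∈ I.map (algebraMap (𝓞 k) (𝓞 K))) : x ∈ I := by
  have hmap : (I ⊔ Ideal.span {x}).map (algebraMap (𝓞 k) (𝓞 K)) =
      I.map (algebraMap (𝓞 k) (𝓞 K)) := by
    rw [Ideal.map_sup, Ideal.map_span, Set.image_singleton]
    refine sup_eq_left.mpr ?_
    rw [Ideal.span_singleton_le_iff_mem]
    exact hx
  have hn := congrArg (Ideal.relNorm (𝓞 k)) hmap
  rw [Ideal.relNorm_algebraMap, Ideal.relNorm_algebraMap] at hn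
  have hr : finrank (𝓞 k) (𝓞 K) ≠ 0 := by
    have := finrank_pos (R := 𝓞 k) (M := 𝓞 K)
    omega
  have hd : I ^ finrank (𝓞 k) (𝓞 K) ∣ (I ⊔ Ideal.span {x}) ^ finrank (𝓞 k) (𝓞 K) := by
    rw [hn]
  have hd2 : I ∣ I ⊔ Ideal.span {x} := (UniqueFactorizationMonoid.pow_dvd_pow_iff_dvd hr).mp hd
  exact Ideal.le_of_dvd hd2 (Ideal.mem_sup_right (Ideal.mem_span_singleton_self x))

theorem dvp (fnb : FnbStmt) : DvpStmt :=
  ⟨fun k _ _ B m p hF h3 => dvp1 fnb k B m p hF h3, fun k _ _ x hx => dvp2 k x hx,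
    fun k K _ _ _ _ _ I x hx => dvp3 k K I x hx⟩

end Pool.Agent.LeoD.H76
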